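import Mathlib

set_option autoImplicit false

namespace Pool.Agent.Results.MP_375cbb_nt.OddRun

open Finset PowerSeries

/-- `B` is the sequence of hypergeometric Bernoulli numbers of order `b`: as formal power series
over `ℚ`, `(e^z - ∑_{k<b} z^k/k!) * ∑_n B_n z^n/n! = z^b/b!`. -/
def IsHypBernoulli (b : ℕ) (B : ℕ → ℚ) : Prop :=
  (PowerSeries.exp ℚ - ∑ k ∈ range b, PowerSeries.C ((k.factorial : ℚ)⁻¹) * PowerSeries.X ^ k) *
    PowerSeries.mk (fun n => B n / (n.factorial : ℚ)) =
    PowerSeries.C ((b.factorial : ℚ)⁻¹) * PowerSeries.X ^ b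

/-- The exponential tail divided by `z^b`. -/
noncomputable def tail (b : ℕ) : PowerSeries ℚ :=
  PowerSeries.mk (fun k => ((b + k).factorial : ℚ)⁻¹)

theorem exp_sub (b : ℕ) :
    PowerSeries.exp ℚ - ∑ k ∈ range b, PowerSeries.C ((k.factorial : ℚ)⁻¹) * PowerSeries.X ^ k =
      PowerSeries.X ^ b * tail b := by
  ext n
  rw [map_sub, PowerSeries.coeff_exp, map_sum, PowerSeries.coeff_X_pow_mul']
  simp only [PowerSeries.coeff_C_mul, PowerSeries.coeff_X_pow]
  by_cases h : b ≤ n
  · rw [if_pos h, Finset.sum_eq_zero]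
    · simp only [tail, PowerSeries.coeff_mk]
      rw [Nat.add_sub_cancel' h]
      simp
    · intro k hk
      rw [mem_range] at hk
      rw [if_neg (by omega), mul_zero]
  · rw [if_neg h, Finset.sum_eq_single n]
    · simp
    · intro k _ hk
      rw [if_neg (Ne.symm hk), mul_zero]
    · intro hn
      exact absurd (mem_range.2 (by omega)) hn

theorem isHyp_iff (b : ℕ) (B : ℕ → ℚ) : IsHypBernoulli b B ↔
    tail b * PowerSeries.mk (fun n => B n / (n.factorial : ℚ)) =
      PowerSeries.C ((b.factorial : ℚ)⁻¹) := by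
  unfold IsHypBernoulli
  rw [exp_sub, mul_assoc, mul_comm (PowerSeries.C _) (PowerSeries.X ^ b)]
  constructor
  · intro h
    exact mul_left_cancel₀ (pow_ne_zero b PowerSeries.X_ne_zero) h
  · intro h
    rw [h]

theorem rec_iff (b : ℕ) (B : ℕ → ℚ) : IsHypBernoulli b B ↔
    ∀ n, ∑ k ∈ range (n + 1), ((b + n).choose k : ℚ) * B k = if n = 0 then 1 else 0 := by
  rw [isHyp_iff, PowerSeries.ext_iff]
  refine forall_congr' fun n => ?_
  have hb : ((b.factorial : ℕ) : ℚ) ≠ 0 := by exact_mod_cast b.factorial_ne_zero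
  have hbn : (((b + n).factorial : ℕ) : ℚ) ≠ 0 := by exact_mod_cast (b + n).factorial_ne_zero
  have key : ∑ k ∈ range (n + 1), ((b + n).choose k : ℚ) * B k =
      ((b + n).factorial : ℚ) * PowerSeries.coeff n
        (tail b * PowerSeries.mk (fun n => B n / (n.factorial : ℚ))) := by
    rw [mul_comm (tail b), PowerSeries.coeff_mul,
      Finset.Nat.sum_antidiagonal_eq_sum_range_succ_mk, Finset.mul_sum]
    refine sum_congr rfl fun k hk => ?_
    rw [mem_range] at hk
    simp only [tail, PowerSeries.coeff_mk]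
    rw [Nat.cast_choose ℚ (show k ≤ b + n by omega)]
    have h1 : ((k.factorial : ℕ) : ℚ) ≠ 0 := by exact_mod_cast k.factorial_ne_zero
    have h2 : (((b + n - k).factorial : ℕ) : ℚ) ≠ 0 := by
      exact_mod_cast (b + n - k).factorial_ne_zero
    have h3 : b + (n - k) = b + n - k := by omega
    rw [h3]
    field_simp
  rw [key, PowerSeries.coeff_C]
  constructor
  · intro h
    rw [h]
    split_ifs with h0
    · subst h0
      simp [hb]
    · simp
  · intro h
    have h' : PowerSeries.coeff n (tail b * PowerSeries.mk (fun n => B n / (n.factorial : ℚ))) =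
        ((b + n).factorial : ℚ)⁻¹ * (if n = 0 then 1 else 0) := by
      rw [← h]
      field_simp
    rw [h']
    split_ifs with h0
    · subst h0
      simp
    · simp

theorem chooseA (ν : ℕ) : ∀ m n : ℕ, n < 2 ^ ν → (2 ^ ν * m + n).choose n % 2 = 1 := by
  induction ν with
  | zero =>
    intro m n hn
    have : n = 0 := by simpa using hn
    subst this
    simp
  | succ ν ih =>
    intro m n hn
    have h := Choose.choose_modEq_choose_mod_mul_choose_div_nat (p := 2)
      (n := 2 ^ (ν + 1) * m + n) (k := n)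
    have e1 : (2 ^ (ν + 1) * m + n) % 2 = n % 2 := by
      rw [pow_succ, mul_comm (2 ^ ν) 2, mul_assoc]; omega
    have e2 : (2 ^ (ν + 1) * m + n) / 2 = 2 ^ ν * m + n / 2 := by
      rw [pow_succ, mul_comm (2 ^ ν) 2, mul_assoc]; omega
    rw [e1, e2, Nat.choose_self, one_mul] at h
    rw [h]
    exact ih m (n / 2) (by rw [pow_succ] at hn; omega)

theorem chooseB (ν : ℕ) : ∀ m k : ℕ, 0 < k → k < 2 ^ ν → (2 ^ ν * m).choose k % 2 = 0 := by
  induction ν with
  | zero =>
    intro m k h0 hk
    simp at hk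
    omega
  | succ ν ih =>
    intro m k h0 hk
    have h := Choose.choose_modEq_choose_mod_mul_choose_div_nat (p := 2)
      (n := 2 ^ (ν + 1) * m) (k := k)
    have e1 : (2 ^ (ν + 1) * m) % 2 = 0 := by
      rw [pow_succ, mul_comm (2 ^ ν) 2, mul_assoc]; omega
    have e2 : (2 ^ (ν + 1) * m) / 2 = 2 ^ ν * m := by
      rw [pow_succ, mul_comm (2 ^ ν) 2, mul_assoc]; omega
    rw [e1, e2] at h
    rw [h]
    rcases Nat.mod_two_eq_zero_or_one k with hk2 | hk2
    · rw [hk2, Nat.choose_self, one_mul]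
      exact ih m (k / 2) (by omega) (by rw [pow_succ] at hk; omega)
    · rw [hk2]
      simp

theorem chooseC (ν : ℕ) : ∀ m : ℕ, (2 ^ ν * m).choose (2 ^ ν) % 2 = m % 2 := by
  induction ν with
  | zero => intro m; simp
  | succ ν ih =>
    intro m
    have h := Choose.choose_modEq_choose_mod_mul_choose_div_nat (p := 2)
      (n := 2 ^ (ν + 1) * m) (k := 2 ^ (ν + 1))
    have e1 : (2 ^ (ν + 1) * m) % 2 = 0 := by
      rw [pow_succ, mul_comm (2 ^ ν) 2, mul_assoc]; omega
    have e2 : (2 ^ (ν + 1) * m) / 2 = 2 ^ ν * m := by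
      rw [pow_succ, mul_comm (2 ^ ν) 2, mul_assoc]; omega
    have e3 : (2 ^ (ν + 1)) % 2 = 0 := by
      rw [pow_succ, mul_comm (2 ^ ν) 2]; omega
    have e4 : (2 ^ (ν + 1)) / 2 = 2 ^ ν := by
      rw [pow_succ, mul_comm (2 ^ ν) 2]; omega
    rw [e1, e2, e3, e4, Nat.choose_self, one_mul] at h
    rw [h]
    exact ih m

/-- `x` is a rational number with odd denominator. -/
def OddInt (x : ℚ) : Prop := ∃ m z : ℤ, m % 2 = 1 ∧ (m : ℚ) * x = z

theorem OddInt.add {x y : ℚ} (hx : OddInt x) (hy : OddInt y) : OddInt (x + y) := by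
  obtain ⟨m, z, hm, h⟩ := hx
  obtain ⟨m', z', hm', h'⟩ := hy
  refine ⟨m * m', m' * z + m * z', ?_, ?_⟩
  · rw [Int.mul_emod, hm, hm']; norm_num
  · push_cast; linear_combination (m' : ℚ) * h + (m : ℚ) * h'

theorem OddInt.mul {x y : ℚ} (hx : OddInt x) (hy : OddInt y) : OddInt (x * y) := by
  obtain ⟨m, z, hm, h⟩ := hx
  obtain ⟨m', z', hm', h'⟩ := hy
  refine ⟨m * m', z * z', ?_, ?_⟩
  · rw [Int.mul_emod, hm, hm']; norm_num
  · push_cast; rw [← h, ← h']; ring

theorem OddInt.int (n : ℤ) : OddInt (n : ℚ) := ⟨1, n, by norm_num, by simp⟩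

theorem OddInt.nat (n : ℕ) : OddInt (n : ℚ) := ⟨1, n, by norm_num, by simp⟩

theorem OddInt.sum {s : Finset ℕ} {f : ℕ → ℚ} (h : ∀ k ∈ s, OddInt (f k)) :
    OddInt (∑ k ∈ s, f k) := by
  classical
  induction s using Finset.induction_on with
  | empty => simpa using OddInt.int 0
  | insert a s ha ih =>
    rw [Finset.sum_insert ha]
    exact (h a (mem_insert_self a s)).add (ih fun k hk => h k (mem_insert_of_mem hk))

theorem oddInt_iff (x : ℚ) : OddInt x ↔ ¬ Even x.den := by
  constructor
  · rintro ⟨m, z, hm, h⟩ he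
    have h1 : m * x.num = z * x.den := by
      have : (m : ℚ) * (x.num / x.den) = z := by rw [Rat.num_div_den]; exact h
      have hd : (x.den : ℚ) ≠ 0 := by exact_mod_cast x.den_nz
      field_simp at this
      have h' : (m : ℚ) * x.num = z * x.den := by linear_combination this
      exact_mod_cast h'
    have h2 : (2 : ℤ) ∣ x.den := by
      obtain ⟨r, hr⟩ := he
      exact ⟨r, by rw [hr]; push_cast; ring⟩
    have h3 : (2 : ℤ) ∣ m * x.num := h1 ▸ Dvd.dvd.mul_left h2 z
    have h4 : (2 : ℤ) ∣ x.num := by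
      rcases Int.prime_two.dvd_or_dvd h3 with h | h
      · omega
      · exact h
    have h5 : 2 ∣ x.num.natAbs := Int.natAbs_dvd_natAbs.2 h4
    have h6 : 2 ∣ x.den := by exact_mod_cast h2
    have := Nat.dvd_gcd h5 h6
    rw [x.reduced] at this
    omega
  · intro h
    refine ⟨x.den, x.num, ?_, ?_⟩
    · rw [Nat.not_even_iff] at h
      omega
    · have := Rat.den_mul_eq_num x
      exact_mod_cast this

theorem main (b : ℕ) (hb : 1 ≤ b) (B : ℕ → ℚ) (hB : IsHypBernoulli b B) :
    IsLeast {n | Even (B n).den} (2 ^ padicValNat 2 b) := by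
  rw [rec_iff] at hB
  obtain ⟨m, hm⟩ : 2 ^ padicValNat 2 b ∣ b := pow_padicValNat_dvd
  have hm2 : m % 2 = 1 := by
    by_contra hcon
    have h2 : 2 ∣ m := by omega
    have : 2 ^ (padicValNat 2 b + 1) ∣ b := by
      rw [pow_succ]
      conv_rhs => rw [hm]
      exact mul_dvd_mul_left _ h2
    exact pow_succ_padicValNat_not_dvd (by omega) this
  set ν := padicValNat 2 b with hν
  have hpos : 0 < 2 ^ ν := by positivity
  have hlow : ∀ n, n < 2 ^ ν → OddInt (B n) := by
    intro n
    induction n using Nat.strong_induction_on with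
    | _ n ih =>
      intro hn
      have hr := hB n
      rw [sum_range_succ] at hr
      have hc := chooseA ν m n hn
      rw [← hm] at hc
      have hs : OddInt ((if n = 0 then (1 : ℚ) else 0) + (-1 : ℤ) *
          ∑ k ∈ range n, ((b + n).choose k : ℚ) * B k) := by
        refine OddInt.add ?_ (OddInt.mul (OddInt.int _) (OddInt.sum fun k hk => ?_))
        · split_ifs
          · simpa using OddInt.int 1
          · simpa using OddInt.int 0
        · rw [mem_range] at hk
          exact (OddInt.nat _).mul (ih k hk (hk.trans hn))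
      obtain ⟨u, z, hu, h⟩ := hs
      refine ⟨u * ((b + n).choose n : ℤ), z, ?_, ?_⟩
      · rw [Int.mul_emod, hu]
        have : (((b + n).choose n : ℤ)) % 2 = 1 := by exact_mod_cast hc
        rw [this]; norm_num
      · rw [← h]
        push_cast
        rw [← hr]
        ring
  constructor
  · show Even (B (2 ^ ν)).den
    by_contra hcon
    rw [← oddInt_iff] at hcon
    have hr := hB (2 ^ ν)
    rw [if_neg (by omega), sum_range_succ'] at hr
    have hB0 : B 0 = 1 := by
      have := hB 0
      simpa using this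
    have hbN : b + 2 ^ ν = 2 ^ ν * (m + 1) := by rw [mul_add, ← hm, mul_one]
    have hs : OddInt (∑ k ∈ range (2 ^ ν),
        (((b + 2 ^ ν).choose (k + 1) / 2 : ℕ) : ℚ) * B (k + 1)) := by
      refine OddInt.sum fun k hk => ?_
      rw [mem_range] at hk
      refine (OddInt.nat _).mul ?_
      rcases lt_or_eq_of_le (show k + 1 ≤ 2 ^ ν from hk) with h | h
      · exact hlow _ h
      · rw [h]; exact hcon
    have he : ∑ k ∈ range (2 ^ ν), ((b + 2 ^ ν).choose (k + 1) : ℚ) * B (k + 1) =
        2 * ∑ k ∈ range (2 ^ ν), (((b + 2 ^ ν).choose (k + 1) / 2 : ℕ) : ℚ) * B (k + 1) := by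
      rw [Finset.mul_sum]
      refine sum_congr rfl fun k hk => ?_
      rw [mem_range] at hk
      have hev : (b + 2 ^ ν).choose (k + 1) % 2 = 0 := by
        rcases lt_or_eq_of_le (show k + 1 ≤ 2 ^ ν from hk) with h | h
        · rw [hbN]; exact chooseB ν (m + 1) (k + 1) (by omega) h
        · rw [hbN, h, chooseC]; omega
      have h2 : (b + 2 ^ ν).choose (k + 1) = 2 * ((b + 2 ^ ν).choose (k + 1) / 2) := by omega
      have h3 : ((b + 2 ^ ν).choose (k + 1) : ℚ) =
          2 * (((b + 2 ^ ν).choose (k + 1) / 2 : ℕ) : ℚ) := by exact_mod_cast h2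
      rw [h3]; ring
    rw [he, hB0, Nat.choose_zero_right] at hr
    obtain ⟨u, z, hu, h⟩ := hs
    have : (u : ℚ) = -2 * z := by
      rw [← h]
      push_cast at hr
      linear_combination (u : ℚ) * hr
    have h' : u = -2 * z := by exact_mod_cast this
    omega
  · intro n hn
    by_contra hcon
    have := (oddInt_iff (B n)).1 (hlow n (by omega))
    exact this hn

theorem exists_unique (b : ℕ) : ∃! B : ℕ → ℚ, IsHypBernoulli b B := by
  have hb : ((b.factorial : ℕ) : ℚ) ≠ 0 := by exact_mod_cast b.factorial_ne_zero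
  have hu : PowerSeries.constantCoeff (tail b) ≠ 0 := by
    simp [tail, hb]
  refine ⟨fun n => n.factorial * PowerSeries.coeff n
    (PowerSeries.C ((b.factorial : ℚ)⁻¹) * (tail b)⁻¹), ?_, ?_⟩
  · show IsHypBernoulli b _
    rw [isHyp_iff]
    have : PowerSeries.mk (fun n => ((n.factorial : ℚ) * PowerSeries.coeff n
        (PowerSeries.C ((b.factorial : ℚ)⁻¹) * (tail b)⁻¹)) / (n.factorial : ℚ)) =
        PowerSeries.C ((b.factorial : ℚ)⁻¹) * (tail b)⁻¹ := by
      ext n
      rw [PowerSeries.coeff_mk]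
      have : ((n.factorial : ℕ) : ℚ) ≠ 0 := by exact_mod_cast n.factorial_ne_zero
      field_simp
    rw [this, mul_left_comm, PowerSeries.mul_inv_cancel _ hu, mul_one]
  · intro B' hB'
    rw [isHyp_iff] at hB'
    have hne : tail b ≠ 0 := by
      intro h
      rw [h] at hu
      simp at hu
    have : PowerSeries.mk (fun n => B' n / (n.factorial : ℚ)) =
        PowerSeries.C ((b.factorial : ℚ)⁻¹) * (tail b)⁻¹ := by
      refine mul_left_cancel₀ hne ?_
      rw [hB', mul_left_comm, PowerSeries.mul_inv_cancel _ hu, mul_one]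
    funext n
    have h := congrArg (PowerSeries.coeff n) this
    rw [PowerSeries.coeff_mk] at h
    have h0 : ((n.factorial : ℕ) : ℚ) ≠ 0 := by exact_mod_cast n.factorial_ne_zero
    rw [← h]
    field_simp

/-- **Initial odd denominators of hypergeometric Bernoulli numbers.** For every `b ≥ 1` the
hypergeometric Bernoulli numbers of order `b` exist and are unique, and the least index `n` for
which the denominator of `B_n^{(b)}` in lowest terms is even is `ν₂(b) + 1` when `4 ∤ b` and
`2 ^ ν₂(b)` when `4 ∣ b`. -/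
theorem result : ∀ b : ℕ, 1 ≤ b →
    (∃! B : ℕ → ℚ, IsHypBernoulli b B) ∧
      ∀ B : ℕ → ℚ, IsHypBernoulli b B →
        IsLeast {n : ℕ | Even (B n).den}
          (if b % 4 = 0 then 2 ^ padicValNat 2 b else padicValNat 2 b + 1) := by
  intro b hb
  refine ⟨exists_unique b, fun B hB => ?_⟩
  have h := main b hb B hB
  split_ifs with h4
  · exact h
  · have hlt : padicValNat 2 b < 2 := by
      by_contra hcon
      have h1 : 2 ^ 2 ∣ b := (pow_dvd_pow 2 (by omega)).trans pow_padicValNat_dvd
      omega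
    have : padicValNat 2 b + 1 = 2 ^ padicValNat 2 b := by
      interval_cases (padicValNat 2 b) <;> rfl
    rw [this]
    exact h

end Pool.Agent.Results.MP_375cbb_nt.OddRun
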